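import Pool.Agent.X159.TP.Rel

/-! The least small trace for `GL_n` over a number field outside a finite set of tempered places. -/

set_option autoImplicit false

namespace Pool.Agent.X159.TP

open NumberField IsDedekindDomain Filter Topology
open Pool.Agent.W189.TP (DS)
open Pool.Agent.TH861.GL3 (PL qq two_le_qq qq_pos one_lt_qq)
open Pool.Agent.TH949.LT
open Pool.Agent.TH949.UL
open Pool.Agent.Y725.UG (LocT)

universe u

/-- the products of the last parameter with the other ones -/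
noncomputable def cross {n : ℕ} (a : Fin (n + 1) → ℂ) : Fin (n + n) → ℂ :=
  Fin.append (fun i => a i.castSucc * (starRingEnd ℂ) (a (Fin.last n)))
    (fun i => (starRingEnd ℂ) (a i.castSucc) * a (Fin.last n))

theorem norm_cross {n : ℕ} {a : Fin (n + 1) → ℂ} (ha : ∀ i, ‖a i‖ = 1) (j : Fin (n + n)) :
    ‖cross a j‖ = 1 := by
  unfold cross
  refine Fin.addCases (fun i => ?_) (fun i => ?_) j
  · rw [Fin.append_left, norm_mul, RCLike.norm_conj, ha, ha, one_mul]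
  · rw [Fin.append_right, norm_mul, RCLike.norm_conj, ha, ha, one_mul]

theorem sum_cross {n : ℕ} {a : Fin (n + 1) → ℂ} (ha : ∀ i, ‖a i‖ = 1) (k : ℕ) :
    ∃ t : ℝ, t ≤ ‖∑ i, a i ^ k‖ ^ 2 - 1 ∧ ∑ j, cross a j ^ k = (t : ℂ) := by
  set P : ℂ := ∑ i : Fin n, a i.castSucc ^ k with hP
  set L : ℂ := a (Fin.last n) ^ k with hL
  have hLn : ‖L‖ = 1 := by rw [hL, norm_pow, ha, one_pow]
  have h1 : ∑ j, cross a j ^ k = P * (starRingEnd ℂ) L + (starRingEnd ℂ) P * L := by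
    unfold cross
    rw [Fin.sum_univ_add]
    simp only [Fin.append_left, Fin.append_right, mul_pow]
    rw [← Finset.sum_mul, ← Finset.sum_mul, hP, hL, map_pow, map_sum]
    simp only [map_pow]
  have h2 : P * (starRingEnd ℂ) L + (starRingEnd ℂ) P * L = ((2 * (P * (starRingEnd ℂ) L).re : ℝ) : ℂ) := by
    have h3 : (starRingEnd ℂ) P * L = (starRingEnd ℂ) (P * (starRingEnd ℂ) L) := by
      rw [map_mul, Complex.conj_conj]
    rw [h3, Complex.add_conj]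
  refine ⟨2 * (P * (starRingEnd ℂ) L).re, ?_, h1.trans h2⟩
  have h4 : ∑ i, a i ^ k = P + L := by
    rw [Fin.sum_univ_castSucc]
  rw [h4, ← Complex.normSq_eq_norm_sq, Complex.normSq_add, Complex.normSq_eq_norm_sq, Complex.normSq_eq_norm_sq,
    hLn]
  have := sq_nonneg ‖P‖
  linarith

theorem gln_rel (K : Type u) [Field K] [NumberField K] (n m N : ℕ) {D : ℂ → ℂ} {CD : ℝ} (hD : Den D CD)
    {ε : ℝ} (hε : 0 < ε) :
    ∃ A : ℝ, 0 < A ∧ ∀ (S : Finset (HeightOneSpectrum (𝓞 K))) (α : PL S → Fin (n + 1) → ℂ)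
      (β : HeightOneSpectrum (𝓞 K) → Fin m → ℂ) (T : Finset (HeightOneSpectrum (𝓞 K) × Fin m))
      (κ : Fin N → ℂ) (Q : ℝ) (G : ℂ → ℂ),
      LocT α β T → LData N κ Q G → (∃ j, κ j = 0) →
      (∀ s : ℂ, 5 / 2 ≤ s.re → G s * ∏ v ∈ S, ∏ i, (1 - β v i * ((qq v : ℕ) : ℂ) ^ (-s)) =
        D s * Complex.exp (logAdn α s)) →
      ∀ R : Finset (HeightOneSpectrum (𝓞 K)), (∀ v ∈ R, ∃ h : v ∉ S, ∀ i, ‖α ⟨v, h⟩ i‖ = 1) →
      ∃ (v : PL S) (k : ℕ), v.1 ∉ R ∧ 1 ≤ k ∧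
        (qq v.1 : ℝ) ^ k ≤ A * (Q ^ 2 * PK κ * (∏ x ∈ T, (qq x.1 : ℝ)) *
          ∏ v ∈ R, (qq v : ℝ) ^ (2 * n)) ^ (1 + ε) ∧
        ‖∑ i, α v i ^ k‖ < 1 := by
  classical
  obtain ⟨A, hA0, hA⟩ := euler_rel.{u} K N m (n + n) hD (B := ((n + 1 : ℕ) : ℝ) ^ 2 + m + 1) (by positivity) hε
  refine ⟨A, hA0, fun S α β T κ Q G h hG hκ hE R hR => ?_⟩
  set β' : HeightOneSpectrum (𝓞 K) → Fin m → ℂ := fun v i => if (v, i) ∈ T then 0 else β v i with hβ'
  have hpow : ∀ v k, ∑ i, β' v i ^ (k + 1) = ∑ i, (if (v, i) ∈ T then 0 else β v i ^ (k + 1)) := by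
    intro v k
    refine Finset.sum_congr rfl fun i _ => ?_
    rw [hβ']
    simp only
    split_ifs
    · exact zero_pow (Nat.succ_ne_zero k)
    · rfl
  have hL : Loc α β' := by
    refine ⟨h.bound, fun v hv i => ?_, fun v hv k => ?_⟩
    · rw [hβ']
      simp only
      split_ifs
      · rw [norm_zero]
        exact qq_pos v
      · exact h.ramified v hv i
    · obtain ⟨c, hc, hc2⟩ := h.nonneg v hv k
      refine ⟨c, hc, ?_⟩
      rw [hpow]
      simp only [← hc2]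
  set c : HeightOneSpectrum (𝓞 K) → Fin (n + n) → ℂ := fun v =>
    if hv : v ∈ S then fun _ => 1 else cross (α ⟨v, hv⟩) with hc
  have hcv : ∀ v (hv : v ∉ S), c v = cross (α ⟨v, hv⟩) := fun v hv => dif_neg hv
  obtain ⟨x, hxR, hx, hxl⟩ := hA (dall α β') κ Q G T (fun x => β x.1 x.2) R c
    (fun x hx => (h.removed x hx).2) hG hκ
    (dall_le hL) (fun s hs => by
      have h1 := hE s hs
      have h2 := exp_all hL hs
      have h3 : ∏ v ∈ S, ∏ i, (1 - β v i * ((qq v : ℕ) : ℂ) ^ (-s)) =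
          (∏ v ∈ S, ∏ i, (1 - β' v i * ((qq v : ℕ) : ℂ) ^ (-s))) *
            ∏ x ∈ T, (1 - β x.1 x.2 * ((qq x.1 : ℕ) : ℂ) ^ (-s)) := by
        rw [← Finset.prod_product' S Finset.univ (fun v i => 1 - β v i * ((qq v : ℕ) : ℂ) ^ (-s)),
          ← Finset.prod_product' S Finset.univ (fun v i => 1 - β' v i * ((qq v : ℕ) : ℂ) ^ (-s))]
        have hsub : T ⊆ S ×ˢ Finset.univ := fun x hx => Finset.mem_product.2 ⟨(h.removed x hx).1, Finset.mem_univ _⟩
        have h4 : ∏ x ∈ T, (1 - β x.1 x.2 * ((qq x.1 : ℕ) : ℂ) ^ (-s)) =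
            ∏ x ∈ S ×ˢ Finset.univ, if x ∈ T then (1 - β x.1 x.2 * ((qq x.1 : ℕ) : ℂ) ^ (-s)) else 1 := by
          rw [Finset.prod_ite_mem, Finset.inter_eq_right.2 hsub]
        rw [h4, ← Finset.prod_mul_distrib]
        refine Finset.prod_congr rfl fun x _ => ?_
        rw [hβ']
        simp only
        split_ifs <;> simp
      have hne : ∏ v ∈ S, ∏ i, (1 - β' v i * ((qq v : ℕ) : ℂ) ^ (-s)) ≠ 0 := by
        intro h0
        rw [h0, mul_zero] at h2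
        exact Complex.exp_ne_zero _ h2.symm
      rw [h3, ← h2] at h1
      have h5 : (G s * ∏ x ∈ T, (1 - β x.1 x.2 * ((qq x.1 : ℕ) : ℂ) ^ (-s))) *
          (∏ v ∈ S, ∏ i, (1 - β' v i * ((qq v : ℕ) : ℂ) ^ (-s))) =
          (D s * Complex.exp (DS (dall α β') LV s)) *
          (∏ v ∈ S, ∏ i, (1 - β' v i * ((qq v : ℕ) : ℂ) ^ (-s))) := by
        linear_combination h1
      exact mul_right_cancel₀ hne h5)
    (fun v hv j => by
      obtain ⟨h1, h2⟩ := hR v hv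
      rw [hcv v h1]
      exact norm_cross h2 j)
    (fun v hv k => by
      obtain ⟨h1, h2⟩ := hR v hv
      obtain ⟨t, ht, ht2⟩ := sum_cross h2 (k + 1)
      refine ⟨t, ?_, by rw [hcv v h1]; exact ht2⟩
      rw [dall_P h1, div_mul_cancel₀ _ (by positivity)]
      exact ht)
  by_cases hxS : x.1 ∈ S
  · exfalso
    obtain ⟨v, k⟩ := x
    rw [dall_S hxS] at hx
    obtain ⟨c, hc, hc2⟩ := hL.ramified_nonneg v hxS k
    rw [hc2, Complex.ofReal_re] at hx
    have : 0 ≤ c / ((k : ℝ) + 1) := by positivity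
    linarith
  · obtain ⟨v, k⟩ := x
    rw [dall_P hxS] at hx
    refine ⟨⟨v, hxS⟩, k + 1, hxR, by omega, ?_, ?_⟩
    · rw [two_mul]
      exact hxl
    · by_contra hcon
      push Not at hcon
      have h1 : (1 : ℝ) ≤ ‖∑ i, α ⟨v, hxS⟩ i ^ (k + 1)‖ ^ 2 := one_le_pow₀ hcon
      have : 0 ≤ (‖∑ i, α ⟨v, hxS⟩ i ^ (k + 1)‖ ^ 2 - 1) / ((k : ℝ) + 1) := by
        apply div_nonneg <;> [linarith; positivity]
      linarith

end Pool.Agent.X159.TP
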