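import Pool.Agent.Y725.UG.Rat
import Pool.Agent.X159.TP.Gln

/-! The least small trace for `GL_n` over `ℚ` outside a finite set of tempered primes, and the number of tempered
places. -/

set_option autoImplicit false

namespace Pool.Agent.X159.TP

open NumberField IsDedekindDomain Filter Topology Complex
open Pool.Agent.TH861.GL3 (PL qq two_le_qq one_lt_qq)
open Pool.Agent.TH949.LT
open Pool.Agent.TH949.UL
open Pool.Agent.Y725.UG

theorem rat_rel (n m N : ℕ) {ε : ℝ} (hε : 0 < ε) :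
    ∃ A : ℝ, 0 < A ∧ ∀ (S : Finset Nat.Primes) (α : UP S → Fin (n + 1) → ℂ) (β : Nat.Primes → Fin m → ℂ)
      (T : Finset (Nat.Primes × Fin m)) (κ : Fin N → ℂ) (Q : ℝ), CuspQ α β T κ Q →
      ∀ R : Finset Nat.Primes, (∀ p ∈ R, ∃ h : p ∉ S, ∀ i, ‖α ⟨p, h⟩ i‖ = 1) →
      ∃ (p : UP S) (k : ℕ), p.1 ∉ R ∧ 1 ≤ k ∧
        ((p.1 : ℕ) : ℝ) ^ k ≤ A * (Q ^ 2 * (∏ j, (1 + ‖κ j‖)) * (∏ x ∈ T, ((x.1 : ℕ) : ℝ)) *
          ∏ p ∈ R, ((p : ℕ) : ℝ) ^ (2 * n)) ^ (1 + ε) ∧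
        ‖∑ i, α p i ^ k‖ < 1 := by
  classical
  obtain ⟨CD, hCD⟩ := den_DQ
  obtain ⟨A, hA0, hA⟩ := gln_rel ℚ n m N hCD hε
  refine ⟨A, hA0, fun S α β T κ Q h R hR => ?_⟩
  obtain ⟨G, Ξ, ω, hG, hΞ, hω, hE, hgr, hΞe, hfe⟩ := h.continuation
  obtain ⟨F, hF, hFG⟩ := gdata h.one_le hω h.conj h.re hG hΞ hgr hΞe hfe
  set S' : Finset (HeightOneSpectrum (𝓞 ℚ)) := S.map ee.symm.toEmbedding with hS'
  have hmem : ∀ v, v ∈ S' ↔ ee v ∈ S := by
    intro v
    rw [hS', Finset.mem_map_equiv, Equiv.symm_symm]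
  set R' : Finset (HeightOneSpectrum (𝓞 ℚ)) := R.map ee.symm.toEmbedding with hR'
  have hmemR : ∀ v, v ∈ R' ↔ ee v ∈ R := by
    intro v
    rw [hR', Finset.mem_map_equiv, Equiv.symm_symm]
  set T' : Finset (HeightOneSpectrum (𝓞 ℚ) × Fin m) :=
    T.map (Equiv.prodCongr ee.symm (Equiv.refl (Fin m))).toEmbedding with hT'
  have hTm : ∀ v i, (v, i) ∈ T' ↔ (ee v, i) ∈ T := by
    intro v i
    rw [hT', Finset.mem_map_equiv]
    rfl
  set α' : PL S' → Fin (n + 1) → ℂ := fun v => α ⟨ee v.1, fun h => v.2 ((hmem v.1).2 h)⟩ with hα'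
  set β' : HeightOneSpectrum (𝓞 ℚ) → Fin m → ℂ := fun v i => β (ee v) i with hβ'
  have hloc : LocT α' β' T' := by
    refine ⟨fun v i => ?_, fun v hv i => ?_, fun x hx => ?_, fun v hv k => ?_⟩
    · rw [qq_eq]
      exact h.bound _ i
    · rw [qq_eq]
      exact h.ramified _ ((hmem v).1 hv) i
    · obtain ⟨v, i⟩ := x
      have h1 := h.removed _ ((hTm v i).1 hx)
      exact ⟨(hmem v).2 h1.1, h1.2⟩
    · obtain ⟨c, hc, hc2⟩ := h.nonneg _ ((hmem v).1 hv) k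
      refine ⟨c, hc, ?_⟩
      rw [← hc2]
      refine Finset.sum_congr rfl fun i _ => ?_
      by_cases hi : (v, i) ∈ T'
      · rw [if_pos hi, Set.indicator_of_notMem (by simpa using (hTm v i).1 hi)]
      · rw [if_neg hi, Set.indicator_of_mem (by
          have := fun hh => hi ((hTm v i).2 hh)
          simpa using this)]
  have hlog : ∀ s, logAdn α' s = logAdQ α s := by
    intro s
    unfold logAdn logAdQ
    set e2 : PL S' ≃ UP S := ee.subtypeEquiv (fun v => not_congr (hmem v)) with he2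
    rw [← (Equiv.prodCongr e2 (Equiv.refl ℕ)).tsum_eq]
    refine tsum_congr fun x => ?_
    have h1 : (qq x.1.1 : ℕ) = (((e2 x.1).1 : Nat.Primes) : ℕ) := qq_eq x.1.1
    rw [h1]
    rfl
  have hprod : ∀ s : ℂ, ∏ v ∈ S', ∏ i, (1 - β' v i * ((qq v : ℕ) : ℂ) ^ (-s)) =
      ∏ p ∈ S, ∏ i, (1 - β p i * ((p : ℕ) : ℂ) ^ (-s)) := by
    intro s
    rw [hS', Finset.prod_map]
    refine Finset.prod_congr rfl fun p _ => Finset.prod_congr rfl fun i _ => ?_
    have h1 : ee (ee.symm p) = p := ee.apply_symm_apply p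
    have h2 : β' (ee.symm.toEmbedding p) i = β p i := by
      rw [hβ']
      simp [h1]
    have h3 : qq (ee.symm.toEmbedding p) = (p : ℕ) := by
      rw [qq_eq]
      simp [h1]
    rw [h2, h3]
  have hT'q : ∏ x ∈ T', (qq x.1 : ℝ) = ∏ x ∈ T, ((x.1 : ℕ) : ℝ) := by
    rw [hT', Finset.prod_map]
    refine Finset.prod_congr rfl fun x _ => ?_
    rw [qq_eq]
    simp
  have hR'q : ∏ v ∈ R', (qq v : ℝ) ^ (2 * n) = ∏ p ∈ R, ((p : ℕ) : ℝ) ^ (2 * n) := by
    rw [hR', Finset.prod_map]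
    refine Finset.prod_congr rfl fun x _ => ?_
    rw [qq_eq]
    simp
  obtain ⟨v, k, hvR, hk, hle, hlt⟩ := hA S' α' β' T' κ Q F hloc hF h.zero (fun s hs => by
    have hs1 : 1 < s.re := by linarith
    have hne : s ≠ 1 := fun h0 => by rw [h0] at hs1; simp at hs1
    rw [hprod, hFG s hs1, hlog, DQ_eq' (by linarith) hne]
    linear_combination (s * Gammaℝ s) * hE s hs1) R' (fun v hv => by
      obtain ⟨h1, h2⟩ := hR (ee v) ((hmemR v).1 hv)
      exact ⟨fun hh => h1 ((hmem v).1 hh), h2⟩)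
  refine ⟨⟨ee v.1, fun h => v.2 ((hmem v.1).2 h)⟩, k, fun hh => hvR ((hmemR v.1).2 hh), hk, ?_, hlt⟩
  rw [qq_eq, hT'q, hR'q] at hle
  exact hle

/-- from the relative statement to the number of elements -/
theorem count_of_rel {P : Type*} {q : P → ℝ} (hq : ∀ v, 1 ≤ q v) {good : P → Prop} {B κ : ℝ} (hB : 1 ≤ B)
    (hκ : 0 < κ)
    (h : ∀ R : Finset P, (∀ v ∈ R, good v) → ∃ v, v ∉ R ∧ good v ∧ q v ≤ B * (∏ w ∈ R, q w) ^ κ) (k : ℕ) :
    ∃ R : Finset P, R.card = k + 1 ∧ (∀ v ∈ R, good v ∧ q v ≤ B ^ ((1 + κ) ^ k)) ∧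
      ∏ v ∈ R, q v ≤ B ^ (((1 + κ) ^ (k + 1) - 1) / κ) := by
  classical
  have hB0 : 0 < B := by linarith
  induction k with
  | zero =>
    obtain ⟨v, -, hg, hv⟩ := h ∅ (by simp)
    rw [Finset.prod_empty, Real.one_rpow, mul_one] at hv
    refine ⟨{v}, by simp, fun w hw => ?_, ?_⟩
    · rw [Finset.mem_singleton] at hw
      subst hw
      refine ⟨hg, ?_⟩
      rw [pow_zero, Real.rpow_one]
      exact hv
    · rw [Finset.prod_singleton, zero_add, pow_one]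
      have : (1 + κ - 1) / κ = 1 := by field_simp; ring
      rw [this, Real.rpow_one]
      exact hv
  | succ k ih =>
    obtain ⟨R, hc, hR, hp⟩ := ih
    obtain ⟨v, hvR, hg, hv⟩ := h R fun v hv => (hR v hv).1
    have hprod0 : 0 ≤ ∏ w ∈ R, q w := Finset.prod_nonneg fun w _ => by linarith [hq w]
    have hb : q v ≤ B ^ ((1 + κ) ^ (k + 1)) := by
      refine hv.trans ?_
      have h1 : (∏ w ∈ R, q w) ^ κ ≤ B ^ ((1 + κ) ^ (k + 1) - 1) := by
        refine (Real.rpow_le_rpow hprod0 hp hκ.le).trans (le_of_eq ?_)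
        rw [← Real.rpow_mul hB0.le]
        congr 1
        field_simp
      calc B * (∏ w ∈ R, q w) ^ κ ≤ B * B ^ ((1 + κ) ^ (k + 1) - 1) :=
            mul_le_mul_of_nonneg_left h1 hB0.le
        _ = B ^ (1 : ℝ) * B ^ ((1 + κ) ^ (k + 1) - 1) := by rw [Real.rpow_one]
        _ = _ := by
          rw [← Real.rpow_add hB0]
          congr 1
          ring
    refine ⟨insert v R, by rw [Finset.card_insert_of_notMem hvR, hc], fun w hw => ?_, ?_⟩
    · rcases Finset.mem_insert.1 hw with rfl | hw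
      · exact ⟨hg, hb⟩
      · refine ⟨(hR w hw).1, (hR w hw).2.trans (Real.rpow_le_rpow_of_exponent_le hB ?_)⟩
        exact pow_le_pow_right₀ (by linarith) (Nat.le_succ k)
    · rw [Finset.prod_insert hvR]
      calc q v * ∏ w ∈ R, q w ≤ B ^ ((1 + κ) ^ (k + 1)) * B ^ (((1 + κ) ^ (k + 1) - 1) / κ) :=
            mul_le_mul hb hp hprod0 (by positivity)
        _ = _ := by
          rw [← Real.rpow_add hB0]
          congr 1
          field_simp
          ring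

end Pool.Agent.X159.TP
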