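import Pool.Agent.Y725.UG.Gen
import Pool.Agent.TH949.UL.DQ

/-! A relative version of the uniform Landau lemma for Euler products: finitely many places, at which the
logarithm of the local factor becomes nonnegative after the removal of boundedly many factors with roots of
absolute value one, do not matter. -/

set_option autoImplicit false

namespace Pool.Agent.X159.TP

open NumberField IsDedekindDomain Filter Topology
open Pool.Agent.W189.TP (DS DS_norm_le norm_term)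
open Pool.Agent.TH861.GL3 (PL qq two_le_qq qq_pos one_lt_qq)
open Pool.Agent.TH949.LT
open Pool.Agent.TH949.UL

universe u

section

variable {K : Type u} [Field K] [NumberField K] {r r' : ℕ}

open scoped Classical in
/-- the part of the coefficients at `R` which is removed -/
noncomputable def rem (R : Finset (HeightOneSpectrum (𝓞 K))) (c : HeightOneSpectrum (𝓞 K) → Fin r' → ℂ)
    (x : PV K) : ℝ :=
  if x.1 ∈ R then (∑ j, c x.1 j ^ (x.2 + 1)).re / ((x.2 : ℝ) + 1) else 0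

variable {R : Finset (HeightOneSpectrum (𝓞 K))} {c : HeightOneSpectrum (𝓞 K) → Fin r' → ℂ}

theorem rem_le (hc : ∀ v ∈ R, ∀ j, ‖c v j‖ = 1) (x : PV K) : |rem R c x| ≤ r' * Real.exp (LV x) := by
  have h4 : 1 ≤ Real.exp (LV x) := Real.one_le_exp (LV_nonneg x)
  have hk : (1 : ℝ) ≤ (x.2 : ℝ) + 1 := by
    have : (0 : ℝ) ≤ x.2 := Nat.cast_nonneg _
    linarith
  unfold rem
  split_ifs with hx
  · rw [abs_div, abs_of_pos (by linarith : (0 : ℝ) < (x.2 : ℝ) + 1)]
    refine (div_le_self (abs_nonneg _) hk).trans ?_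
    refine (Complex.abs_re_le_norm _).trans ((norm_sum_le _ _).trans ?_)
    calc ∑ j, ‖c x.1 j ^ (x.2 + 1)‖ = ∑ _j : Fin r', (1 : ℝ) := by
          refine Finset.sum_congr rfl fun j _ => ?_
          rw [norm_pow, hc x.1 hx j, one_pow]
      _ = r' * 1 := by simp
      _ ≤ _ := mul_le_mul_of_nonneg_left h4 (Nat.cast_nonneg _)
  · rw [abs_zero]
    positivity

theorem exp_rem {d : PV K → ℝ} {B : ℝ} (hd : ∀ x, |d x| ≤ B * Real.exp (LV x))
    (hc : ∀ v ∈ R, ∀ j, ‖c v j‖ = 1)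
    (hre : ∀ v ∈ R, ∀ k : ℕ, ∃ a : ℝ, ∑ j, c v j ^ (k + 1) = (a : ℂ)) {s : ℂ} (hs : 5 / 2 ≤ s.re) :
    Complex.exp (DS d LV s) * (∏ v ∈ R, ∏ j, (1 - c v j * ((qq v : ℕ) : ℂ) ^ (-s))) =
      Complex.exp (DS (fun x => d x - rem R c x) LV s) := by
  classical
  have hsd : Summable fun x : PV K => (d x : ℂ) * Complex.exp (-(s * LV x)) :=
    Summable.of_norm ((d_sum hd hs).1.congr fun x => by rw [norm_term])
  have hsr : Summable fun x : PV K => (rem R c x : ℂ) * Complex.exp (-(s * LV x)) :=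
    Summable.of_norm ((d_sum (rem_le hc) hs).1.congr fun x => by rw [norm_term])
  have h1 : DS (fun x => d x - rem R c x) LV s =
      DS d LV s - ∑' x : PV K, (rem R c x : ℂ) * Complex.exp (-(s * LV x)) := by
    unfold DS
    rw [← hsd.tsum_sub hsr]
    refine tsum_congr fun x => ?_
    push_cast
    ring
  have h2 : ∑' x : PV K, (rem R c x : ℂ) * Complex.exp (-(s * LV x)) =
      ∑' x : R × ℕ, (rem R c (x.1.1, x.2) : ℂ) * Complex.exp (-(s * LV ((x.1.1, x.2) : PV K))) := by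
    rw [tsum_split (S := R) hsr]
    have h3 : (∑' x : PL R × ℕ, (rem R c (x.1.1, x.2) : ℂ) * Complex.exp (-(s * LV ((x.1.1, x.2) : PV K)))) = 0 := by
      rw [← tsum_zero (α := ℂ) (β := PL R × ℕ)]
      refine tsum_congr fun x => ?_
      have : rem R c (x.1.1, x.2) = 0 := if_neg x.1.2
      rw [this]
      simp
    rw [h3, zero_add]
  have hsum : Summable fun x : R × ℕ =>
      (rem R c (x.1.1, x.2) : ℂ) * Complex.exp (-(s * LV ((x.1.1, x.2) : PV K))) := by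
    refine hsr.comp_injective (i := fun x : R × ℕ => ((x.1.1, x.2) : PV K)) ?_
    rintro ⟨a, k⟩ ⟨b, l⟩ h
    simp only [Prod.mk.injEq] at h
    exact Prod.ext (Subtype.ext h.1) h.2
  have h3 := exp_S' (S := R) (β := c) (e := fun x : R × ℕ =>
      (rem R c (x.1.1, x.2) : ℂ) * Complex.exp (-(s * LV ((x.1.1, x.2) : PV K)))) (s := s)
    (fun v hv i => by
      rw [hc v hv i]
      exact one_lt_qq v) hs (fun v k => by
        obtain ⟨a, ha⟩ := hre v.1 v.2 k
        simp only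
        rw [cexp_LV, rem, if_pos v.2, ha, Complex.ofReal_re]
        push_cast
        ring) hsum
  rw [h1, h2, Complex.exp_sub, h3, div_inv_eq_mul]

end

/-- **Relative uniform Landau lemma for Euler products.** -/
theorem euler_rel (K : Type u) [Field K] [NumberField K] (N r r' : ℕ) {D : ℂ → ℂ} {CD : ℝ} (hD : Den D CD)
    {B ε : ℝ} (hB : 0 ≤ B) (hε : 0 < ε) :
    ∃ A : ℝ, 0 < A ∧ ∀ (d : PV K → ℝ) (κ : Fin N → ℂ) (Q : ℝ) (G : ℂ → ℂ)
      (T : Finset (HeightOneSpectrum (𝓞 K) × Fin r)) (γ : HeightOneSpectrum (𝓞 K) × Fin r → ℂ)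
      (R : Finset (HeightOneSpectrum (𝓞 K))) (c : HeightOneSpectrum (𝓞 K) → Fin r' → ℂ),
      (∀ x ∈ T, ‖γ x‖ = 1) → LData N κ Q G → (∃ j, κ j = 0) → (∀ x, |d x| ≤ B * Real.exp (LV x)) →
      (∀ s : ℂ, 5 / 2 ≤ s.re → G s * ∏ x ∈ T, (1 - γ x * ((qq x.1 : ℕ) : ℂ) ^ (-s)) =
        D s * Complex.exp (DS d LV s)) →
      (∀ v ∈ R, ∀ j, ‖c v j‖ = 1) →
      (∀ v ∈ R, ∀ k : ℕ, ∃ a : ℝ, a ≤ d (v, k) * ((k : ℝ) + 1) ∧ ∑ j, c v j ^ (k + 1) = (a : ℂ)) →
      ∃ x, x.1 ∉ R ∧ d x < 0 ∧ (qq x.1 : ℝ) ^ (x.2 + 1) ≤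
        A * (Q ^ 2 * PK κ * (∏ x ∈ T, (qq x.1 : ℝ)) * ∏ v ∈ R, (qq v : ℝ) ^ r') ^ (1 + ε) := by
  classical
  obtain ⟨A, hA0, hA⟩ := euler.{u} K N (r + r') hD (B := B + r') (by positivity) hε
  refine ⟨A, hA0, fun d κ Q G T γ R c hγ hG hκ hd hE hc hcd => ?_⟩
  set T1 : Finset (HeightOneSpectrum (𝓞 K) × Fin (r + r')) :=
    T.map ⟨fun x => (x.1, Fin.castAdd r' x.2), by
      rintro ⟨a, i⟩ ⟨b, j⟩ h
      simp only [Prod.mk.injEq, Fin.castAdd_inj] at h
      exact Prod.ext h.1 h.2⟩ with hT1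
  set T2 : Finset (HeightOneSpectrum (𝓞 K) × Fin (r + r')) :=
    (R ×ˢ (Finset.univ : Finset (Fin r'))).map ⟨fun x => (x.1, Fin.natAdd r x.2), by
      rintro ⟨a, i⟩ ⟨b, j⟩ h
      simp only [Prod.mk.injEq, Fin.natAdd_inj] at h
      exact Prod.ext h.1 h.2⟩ with hT2
  have hdisj : Disjoint T1 T2 := by
    rw [Finset.disjoint_left]
    rintro x h1 h2
    rw [hT1, Finset.mem_map] at h1
    rw [hT2, Finset.mem_map] at h2
    obtain ⟨a, -, rfl⟩ := h1
    obtain ⟨b, -, h⟩ := h2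
    have h3 := congrArg (fun y : HeightOneSpectrum (𝓞 K) × Fin (r + r') => (y.2 : ℕ)) h
    simp at h3
    omega
  set γ1 : HeightOneSpectrum (𝓞 K) × Fin (r + r') → ℂ := fun x =>
    Fin.append (fun i => γ (x.1, i)) (c x.1) x.2 with hγ1
  have hp1 : ∀ f : HeightOneSpectrum (𝓞 K) → ℂ → ℂ, ∏ x ∈ T1, f x.1 (γ1 x) = ∏ x ∈ T, f x.1 (γ x) := by
    intro f
    rw [hT1, Finset.prod_map]
    refine Finset.prod_congr rfl fun x _ => ?_
    simp [hγ1]
  have hp2 : ∀ f : HeightOneSpectrum (𝓞 K) → ℂ → ℂ, ∏ x ∈ T2, f x.1 (γ1 x) =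
      ∏ v ∈ R, ∏ j, f v (c v j) := by
    intro f
    rw [hT2, Finset.prod_map, Finset.prod_product]
    refine Finset.prod_congr rfl fun v _ => Finset.prod_congr rfl fun j _ => ?_
    simp [hγ1]
  have hq1 : ∏ x ∈ T1, (qq x.1 : ℝ) = ∏ x ∈ T, (qq x.1 : ℝ) := by
    rw [hT1, Finset.prod_map]
    rfl
  have hq2 : ∏ x ∈ T2, (qq x.1 : ℝ) = ∏ v ∈ R, (qq v : ℝ) ^ r' := by
    rw [hT2, Finset.prod_map, Finset.prod_product]
    refine Finset.prod_congr rfl fun v _ => ?_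
    simp
  obtain ⟨x, hx, hxl⟩ := hA (fun x => d x - rem R c x) κ Q G (T1 ∪ T2) γ1
    (fun x hx => by
      rcases Finset.mem_union.1 hx with h | h
      · rw [hT1, Finset.mem_map] at h
        obtain ⟨y, hy, rfl⟩ := h
        have := hγ y hy
        simpa [hγ1] using this
      · rw [hT2, Finset.mem_map] at h
        obtain ⟨y, hy, rfl⟩ := h
        have := hc y.1 (Finset.mem_product.1 hy).1 y.2
        simpa [hγ1] using this) hG hκ
    (fun x => by
      refine (abs_sub _ _).trans ?_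
      have h1 := hd x
      have h2 := rem_le hc x
      linarith)
    (fun s hs => by
      have h1 := hE s hs
      have h2 := exp_rem hd hc (fun v hv k => by
        obtain ⟨a, -, ha⟩ := hcd v hv k
        exact ⟨a, ha⟩) hs
      rw [Finset.prod_union hdisj, hp1 (fun v z => 1 - z * ((qq v : ℕ) : ℂ) ^ (-s)),
        hp2 (fun v z => 1 - z * ((qq v : ℕ) : ℂ) ^ (-s)), ← h2, ← mul_assoc, h1]
      ring)
  have hxR : x.1 ∉ R := by
    intro hR
    obtain ⟨a, ha, ha2⟩ := hcd x.1 hR x.2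
    have h1 : rem R c x = a / ((x.2 : ℝ) + 1) := by
      rw [rem, if_pos hR, ha2, Complex.ofReal_re]
    rw [h1, sub_neg, lt_div_iff₀ (by positivity)] at hx
    exact absurd (hx.trans_le' ha) (lt_irrefl _)
  refine ⟨x, hxR, ?_, ?_⟩
  · have h1 : rem R c x = 0 := if_neg hxR
    rw [h1, sub_zero] at hx
    exact hx
  · rw [Finset.prod_union hdisj, hq1, hq2, ← mul_assoc] at hxl
    exact hxl

end Pool.Agent.X159.TP
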